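import Pool.Agent.N983.RT.Stm

/-!
# Project RT, package IND: many independent events (greedy choice)
-/

set_option autoImplicit false

open Finset

namespace Pool.Agent.U261.RT

open Pool.Agent.N983.RT

theorem two_inj {x y : Wv} (h : x + x = y + y) : x = y := by
  funext i
  have := congrFun h i
  simp only [Pi.add_apply] at this
  omega

theorem s_eq {x y : Wv} (h : s(x, -x) = s(y, -y)) : x = y ∨ x = -y := by
  rw [Sym2.eq_iff] at h
  rcases h with ⟨h1, -⟩ | ⟨h1, -⟩
  · exact Or.inl h1
  · exact Or.inr h1

/-- the six `m'` for which one of `m'`, `p - m'`, `q - m'` is `a` or `-a` -/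
def six (p q a : Wv) : Finset Wv := {a, -a, p - a, p + a, q - a, q + a}

theorem six_card (p q a : Wv) : (six p q a).card ≤ 6 := by
  unfold six
  refine (card_insert_le _ _).trans (Nat.succ_le_succ ?_)
  refine (card_insert_le _ _).trans (Nat.succ_le_succ ?_)
  refine (card_insert_le _ _).trans (Nat.succ_le_succ ?_)
  refine (card_insert_le _ _).trans (Nat.succ_le_succ ?_)
  refine (card_insert_le _ _).trans (Nat.succ_le_succ ?_)
  rw [card_singleton]

/-- the `m'` in conflict with `m` -/
def conf (p q m : Wv) : Finset Wv := six p q m ∪ (six p q (p - m) ∪ six p q (q - m))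

theorem conf_card (p q m : Wv) : (conf p q m).card ≤ 18 := by
  unfold conf
  refine (card_union_le _ _).trans ?_
  have h1 := card_union_le (six p q (p - m)) (six p q (q - m))
  have h2 := six_card p q m
  have h3 := six_card p q (p - m)
  have h4 := six_card p q (q - m)
  omega

theorem self_mem_conf (p q m : Wv) : m ∈ conf p q m := by
  unfold conf six
  simp

theorem mem_six {p q a x m' : Wv} (hx : x = m' ∨ x = p - m' ∨ x = q - m') (h : x = a ∨ x = -a) :
    m' ∈ six p q a := by
  have key : m' = a ∨ m' = -a ∨ m' = p - a ∨ m' = p + a ∨ m' = q - a ∨ m' = q + a := by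
    rcases hx with rfl | rfl | rfl
    · rcases h with h | h
      · exact Or.inl h
      · exact Or.inr (Or.inl h)
    · rcases h with h | h
      · right; right; left
        rw [← h]
        abel
      · right; right; right; left
        rw [← neg_eq_iff_eq_neg.2 h]
        abel
    · rcases h with h | h
      · right; right; right; right; left
        rw [← h]
        abel
      · right; right; right; right; right
        rw [← neg_eq_iff_eq_neg.2 h]
        abel
  unfold six
  simp only [mem_insert, mem_singleton]
  exact key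

theorem disjoint_of_notMem {p q m m' : Wv} (h : m' ∉ conf p q m) :
    Disjoint (cls p q m) (cls p q m') := by
  rw [disjoint_left]
  intro c hc hc'
  apply h
  unfold cls at hc hc'
  simp only [mem_insert, mem_singleton] at hc hc'
  obtain ⟨a, ha, rfl⟩ : ∃ a, (a = m ∨ a = p - m ∨ a = q - m) ∧ c = s(a, -a) := by
    rcases hc with h | h | h
    · exact ⟨m, Or.inl rfl, h⟩
    · exact ⟨p - m, Or.inr (Or.inl rfl), h⟩
    · exact ⟨q - m, Or.inr (Or.inr rfl), h⟩
  obtain ⟨x, hx, hxa⟩ : ∃ x, (x = m' ∨ x = p - m' ∨ x = q - m') ∧ s(a, -a) = s(x, -x) := by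
    rcases hc' with h | h | h
    · exact ⟨m', Or.inl rfl, h⟩
    · exact ⟨p - m', Or.inr (Or.inl rfl), h⟩
    · exact ⟨q - m', Or.inr (Or.inr rfl), h⟩
  have h1 := mem_six hx (s_eq hxa.symm)
  unfold conf
  rw [mem_union, mem_union]
  rcases ha with rfl | rfl | rfl
  · exact Or.inl h1
  · exact Or.inr (Or.inl h1)
  · exact Or.inr (Or.inr h1)

theorem greedy {A : Finset Wv} (p q : Wv) : ∀ s : ℕ, 19 * s ≤ A.card → ∃ T ⊆ A, T.card = s ∧
    ∀ m ∈ T, ∀ m' ∈ T, m ≠ m' → Disjoint (cls p q m) (cls p q m') := by
  intro s
  induction s with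
  | zero =>
    intro _
    exact ⟨∅, empty_subset _, card_empty, by simp⟩
  | succ s ih =>
    intro h
    obtain ⟨T, hTA, hT, hd⟩ := ih (by omega)
    have h1 : (T.biUnion (conf p q)).card < A.card := by
      have h2 : (T.biUnion (conf p q)).card ≤ T.card * 18 :=
        card_biUnion_le_card_mul _ _ _ fun m _ => conf_card p q m
      rw [hT] at h2
      omega
    obtain ⟨m₀, hm₀, hm₁⟩ := exists_mem_notMem_of_card_lt_card h1
    have h3 : ∀ m ∈ T, m₀ ∉ conf p q m := fun m hm h =>
      hm₁ (mem_biUnion.2 ⟨m, hm, h⟩)
    have h4 : m₀ ∉ T := fun h => h3 m₀ h (self_mem_conf p q m₀)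
    refine ⟨insert m₀ T, insert_subset hm₀ hTA, by rw [card_insert_of_notMem h4, hT], ?_⟩
    intro m hm m' hm' hne
    rw [mem_insert] at hm hm'
    rcases hm with rfl | hm <;> rcases hm' with rfl | hm'
    · exact absurd rfl hne
    · exact (disjoint_of_notMem (h3 m' hm')).symm
    · exact disjoint_of_notMem (h3 m hm)
    · exact hd m hm m' hm' hne

theorem t_IND : S_IND := by
  classical
  intro A p q hpq hp hq s hs
  let B : Finset Wv := A.filter fun m => m + m = p ∨ m + m = q ∨ m + m = p + q
  have hB : B.card ≤ 3 := by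
    have h1 : (B.image fun m => m + m) ⊆ {p, q, p + q} := by
      intro x hx
      rw [mem_image] at hx
      obtain ⟨m, hm, rfl⟩ := hx
      simp only [B, mem_filter] at hm
      simp only [mem_insert, mem_singleton]
      exact hm.2
    have h2 : (B.image fun m => m + m).card = B.card :=
      card_image_of_injective _ fun x y h => two_inj h
    rw [← h2]
    exact (card_le_card h1).trans card_le_three
  have hcard : 19 * s ≤ (A \ B).card := by
    have := le_card_sdiff B A
    omega
  obtain ⟨T, hT, hTs, hd⟩ := greedy p q s hcard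
  refine ⟨T, hT.trans sdiff_subset, hTs, ?_, hd⟩
  intro m hm
  have h1 := hT hm
  rw [mem_sdiff] at h1
  have h2 : ¬ (m + m = p ∨ m + m = q ∨ m + m = p + q) := fun h =>
    h1.2 (mem_filter.2 ⟨h1.1, h⟩)
  push Not at h2
  unfold cls
  rw [card_eq_three]
  refine ⟨_, _, _, ?_, ?_, ?_, rfl⟩
  · intro h
    rcases s_eq h with h | h
    · exact h2.1 (by nth_rewrite 1 [h]; abel)
    · apply hp
      have : m = m - p := h.trans (by abel)
      have h3 := sub_eq_self.1 this.symm
      exact h3
  · intro h
    rcases s_eq h with h | h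
    · exact h2.2.1 (by nth_rewrite 1 [h]; abel)
    · apply hq
      have : m = m - q := h.trans (by abel)
      have h3 := sub_eq_self.1 this.symm
      exact h3
  · intro h
    rcases s_eq h with h | h
    · exact hpq (sub_left_injective h)
    · apply h2.2.2
      have : p = m - q + m := by rw [← sub_add_cancel p m, h]; abel
      rw [this]
      abel

end Pool.Agent.U261.RT
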